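import Mathlib

/-!
Composite solutions of `(X - 1) ^ n = X ^ n - 1` modulo `X ^ r - 1` and `n`.
-/

namespace Pool.Agent.H24.Aks

open Polynomial

/-- The congruence `(X - 1) ^ e ≡ X ^ e - 1` modulo `X ^ r - 1` and `M`. -/
def Cong (r M e : ℕ) : Prop :=
  (X ^ r - 1 : (ZMod M)[X]) ∣ (X - 1) ^ e - (X ^ e - 1)

lemma Cong.of_dvd {r M M' e : ℕ} (h : Cong r M e) (hM : M' ∣ M) : Cong r M' e := by
  have := Polynomial.map_dvd (ZMod.castHom hM (ZMod M')) h
  simpa [Cong] using this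

/-- Substitution. -/
lemma Cong.eval {r M e : ℕ} (h : Cong r M e) {S : Type*} [CommRing S] [Algebra (ZMod M) S] (y : S)
    (hy : y ^ r = 1) : (y - 1) ^ e = y ^ e - 1 := by
  obtain ⟨A, hA⟩ := h
  have h1 := congrArg (aeval y) hA
  simp only [map_sub, map_pow, map_mul, aeval_X, map_one] at h1
  rw [hy, sub_self, zero_mul] at h1
  exact sub_eq_zero.1 h1

lemma monic_aux {R : Type*} [CommRing R] [Nontrivial R] {r : ℕ} (hr : 0 < r) :
    (X ^ r - 1 : R[X]).Monic ∧ (X ^ r - 1 : R[X]).degree = r := by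
  have h := monic_X_pow_sub_C (1 : R) hr.ne'
  have h2 := degree_X_pow_sub_C hr (1 : R)
  rw [map_one] at h h2
  exact ⟨h, h2⟩

/-- Small exponents. -/
lemma Cong.small {r M e : ℕ} (hM : 1 < M) (h : Cong r M e) (he2 : 2 ≤ e) (her : e < r) :
    M ∣ e := by
  have : Fact (1 < M) := ⟨hM⟩
  have hm := monic_aux (R := ZMod M) (show 0 < r by omega)
  set G : (ZMod M)[X] := (X - 1) ^ e - (X ^ e - 1) with hG
  have hdeg : G.degree < (r : ℕ) := by
    have h1 : ((X - 1 : (ZMod M)[X]) ^ e).natDegree ≤ e := by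
      refine natDegree_pow_le.trans ?_
      have : (X - 1 : (ZMod M)[X]).natDegree ≤ 1 := by
        have := natDegree_X_sub_C (1 : ZMod M)
        rw [map_one] at this
        exact this.le
      calc e * (X - 1 : (ZMod M)[X]).natDegree ≤ e * 1 := Nat.mul_le_mul_left _ this
        _ = e := mul_one e
    have h2 : (X ^ e - 1 : (ZMod M)[X]).natDegree ≤ e := by
      have := natDegree_X_pow_sub_C (n := e) (r := (1 : ZMod M))
      rw [map_one] at this
      exact this.le
    have h3 : G.natDegree ≤ e := (natDegree_sub_le_of_le h1 h2).trans (max_self e).le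
    exact (degree_le_of_natDegree_le h3).trans_lt (by exact_mod_cast her)
  have hG0 : G = 0 := by
    by_contra hne
    exact (hm.1.not_dvd_of_degree_lt hne (by rw [hm.2]; exact hdeg)) h
  have h4 := congrArg (fun Q : (ZMod M)[X] => (derivative Q).eval 0) hG0
  simp only [hG, derivative_sub, derivative_X_pow, derivative_one, derivative_zero, eval_zero,
    derivative_pow, derivative_X, eval_sub, eval_mul, eval_pow, eval_X, eval_one, eval_C,
    mul_one, sub_zero, zero_sub, eval_natCast] at h4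
  have h5 : ((0 : ZMod M)) ^ (e - 1) = 0 := zero_pow (by omega)
  rw [h5, mul_zero, sub_zero] at h4
  have h6 : ((e : ZMod M)) = 0 := by
    have h7 : IsUnit ((-1 : ZMod M) ^ (e - 1)) := (isUnit_one.neg).pow _
    exact (h7.mul_left_eq_zero).1 h4
  exact (ZMod.natCast_eq_zero_iff e M).1 h6

/-- The `p`-free part of the exponent. -/
lemma Cong.pfree {r p a m : ℕ} (hp : p.Prime) (hrp : ¬ p ∣ r) (h : Cong r p (p ^ a * m)) :
    Cong r p m := by
  have := Fact.mk hp
  have hsq : Squarefree (X ^ r - 1 : (ZMod p)[X]) := by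
    apply Polynomial.Separable.squarefree
    rw [X_pow_sub_one_separable_iff]
    intro h0
    exact hrp ((ZMod.natCast_eq_zero_iff r p).1 h0)
  have h1 : ((X - 1) ^ (p ^ a * m) - (X ^ (p ^ a * m) - 1) : (ZMod p)[X]) =
      ((X - 1) ^ m - (X ^ m - 1)) ^ (p ^ a) := by
    rw [sub_pow_char_pow, sub_pow_char_pow (X ^ m) 1, one_pow, ← pow_mul, ← pow_mul, mul_comm m]
  unfold Cong at h ⊢
  rw [h1] at h
  exact (hsq.dvd_pow_iff_dvd (pow_ne_zero a hp.ne_zero)).1 h

lemma square_aux {r n p b : ℕ} (hr : r.Prime) (hp : p.Prime) (hrn : Nat.Coprime r n)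
    (h' : Cong r (p ^ (b + 1)) n) (hpn : p ^ (b + 1) ∣ n) {S : Type*} [CommRing S]
    [Algebra (ZMod (p ^ (b + 1))) S]
    (x : S) (hxr : x ^ r = 1) : (x - 1) ^ p = x ^ p - 1 := by
  have hp0 : ((p : S)) ^ (b + 1) = 0 := by
    have h1 : ((p ^ (b + 1) : ℕ) : ZMod (p ^ (b + 1))) = 0 := ZMod.natCast_self _
    have h2 := congrArg (algebraMap (ZMod (p ^ (b + 1))) S) h1
    rw [map_natCast, map_zero] at h2
    exact_mod_cast h2
  -- iterates
  have hiter : ∀ i : ℕ, ∀ y : S, y ^ r = 1 → (y - 1) ^ (n ^ i) = y ^ (n ^ i) - 1 := by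
    intro i
    induction i with
    | zero => intro y _; simp
    | succ i ih =>
      intro y hy
      have hy' : (y ^ (n ^ i)) ^ r = 1 := by rw [← pow_mul, mul_comm, pow_mul, hy, one_pow]
      calc (y - 1) ^ (n ^ (i + 1)) = ((y - 1) ^ (n ^ i)) ^ n := by rw [pow_succ, pow_mul]
        _ = (y ^ (n ^ i) - 1) ^ n := by rw [ih y hy]
        _ = (y ^ (n ^ i)) ^ n - 1 := h'.eval _ hy'
        _ = y ^ (n ^ (i + 1)) - 1 := by rw [pow_succ, ← pow_mul]
  have hE : ∃ i : ℕ, 1 ≤ i ∧ ∀ y : S, y ^ r = 1 → y ^ (n ^ i) = y := by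
    refine ⟨r - 1, by have := hr.two_le; omega, fun y hy => ?_⟩
    have h1 : n ^ (r - 1) ≡ 1 [MOD r] := by
      have := Nat.ModEq.pow_totient (Nat.Coprime.symm hrn)
      rwa [Nat.totient_prime hr] at this
    have h2 : y ^ (n ^ (r - 1)) = y ^ (n ^ (r - 1) % r) := by
      conv_lhs => rw [← Nat.mod_add_div (n ^ (r - 1)) r, pow_add, pow_mul, hy, one_pow, mul_one]
    have h3 : n ^ (r - 1) % r = 1 := by
      have h4 : n ^ (r - 1) % r = 1 % r := h1
      rw [h4, Nat.mod_eq_of_lt hr.one_lt]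
    rw [h2, h3, pow_one]
  obtain ⟨i, hi, hEy⟩ := hE
  have hfix : ∀ y : S, y ^ r = 1 → (y - 1) ^ (n ^ i) = y - 1 := fun y hy => by
    rw [hiter i y hy, hEy y hy]
  obtain ⟨E', hE'⟩ : p ^ b ∣ n ^ i :=
    dvd_pow ((pow_dvd_pow p (Nat.le_succ b)).trans hpn) (by omega)
  have hxp : (x ^ p) ^ r = 1 := by rw [← pow_mul, mul_comm, pow_mul, hxr, one_pow]
  -- `(x - 1) ^ p ≡ x ^ p - 1` modulo `p`
  have hmodp : ((p : S)) ∣ (x - 1) ^ p - (x ^ p - 1) := by
    obtain ⟨δ, hδ⟩ := exists_add_pow_prime_eq hp x (-1 : S)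
    have h1 : ((p : S)) ∣ (-1 : S) ^ p + 1 := by
      rcases hp.eq_two_or_odd' with h2 | h2
      · subst h2
        norm_num
      · rw [h2.neg_one_pow]
        simp
    obtain ⟨γ, hγ⟩ := h1
    refine ⟨γ + x * (-1) * δ, ?_⟩
    rw [sub_eq_add_neg x 1, hδ]
    linear_combination hγ
  have hpp : ((x - 1) ^ p) ^ (p ^ b) = (x ^ p - 1) ^ (p ^ b) := by
    have h1 := dvd_sub_pow_of_dvd_sub hmodp b
    rw [hp0] at h1
    exact sub_eq_zero.1 (zero_dvd_iff.1 h1)
  calc (x - 1) ^ p = ((x - 1) ^ (n ^ i)) ^ p := by rw [hfix x hxr]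
    _ = ((x - 1) ^ p) ^ (n ^ i) := by rw [← pow_mul, ← pow_mul, mul_comm]
    _ = (((x - 1) ^ p) ^ (p ^ b)) ^ E' := by rw [hE', pow_mul]
    _ = ((x ^ p - 1) ^ (p ^ b)) ^ E' := by rw [hpp]
    _ = (x ^ p - 1) ^ (n ^ i) := by rw [hE', pow_mul]
    _ = x ^ p - 1 := hfix _ hxp

lemma root_pow {r M : ℕ} : (AdjoinRoot.root (X ^ r - 1 : (ZMod M)[X])) ^ r = 1 := by
  have h1 : (AdjoinRoot.mk (X ^ r - 1 : (ZMod M)[X])) (X ^ r - 1) = 0 := AdjoinRoot.mk_self
  rw [map_sub, map_pow, map_one, AdjoinRoot.mk_X] at h1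
  exact sub_eq_zero.1 h1

/-- If `p ^ (b + 1)` divides `n`, then the congruence holds for the exponent `p` and the modulus
`p ^ (b + 1)`. -/
lemma Cong.square {r n p b : ℕ} (hr : r.Prime) (hp : p.Prime) (hrn : Nat.Coprime r n)
    (h : Cong r n n) (hpn : p ^ (b + 1) ∣ n) : Cong r (p ^ (b + 1)) p := by
  have hkey := square_aux hr hp hrn (h.of_dvd hpn) hpn
    (AdjoinRoot.root (X ^ r - 1 : (ZMod (p ^ (b + 1)))[X])) root_pow
  unfold Cong
  rw [← AdjoinRoot.mk_eq_zero]
  simp only [map_sub, map_pow, map_one, AdjoinRoot.mk_X]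
  exact sub_eq_zero.2 hkey

/-- The exponent is odd, unless the modulus is `2`. -/
lemma Cong.even {r n : ℕ} (hr : r.Prime) (hrn : Nat.Coprime r n) (hn : 1 < n) (h : Cong r n n)
    (he : Even n) : n = 2 := by
  have : Fact (1 < n) := ⟨hn⟩
  set f : (ZMod n)[X] := X ^ r - 1 with hf
  have key : ∀ {S : Type} [CommRing S] [Algebra (ZMod n) S] (x : S), x ^ r = 1 →
      2 * (x ^ (n % r) - 1) = 0 := by
    intro S _ _ x hx
    set y := x ^ (r - 1) with hy
    have hyx : y * x = 1 := by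
      rw [hy, ← pow_succ, Nat.sub_add_cancel hr.one_le, hx]
    have hyr : y ^ r = 1 := by rw [hy, ← pow_mul, mul_comm, pow_mul, hx, one_pow]
    have h1 := h.eval y hyr
    have h2 := h.eval x hx
    have h3 : y - 1 = (-y) * (x - 1) := by linear_combination hyx
    have h4 : (y - 1) ^ n = 1 - y ^ n := by
      rw [h3, mul_pow, he.neg_pow, h2, mul_sub, ← mul_pow, hyx, one_pow, mul_one]
    have h5 : 2 * (y ^ n - 1) = 0 := by linear_combination h4 - h1
    have h6 : 2 * (x ^ n - 1) = 0 := by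
      have h7 : x ^ n * y ^ n = 1 := by rw [← mul_pow, mul_comm x y, hyx, one_pow]
      have h8 : 2 * (x ^ n - 1) = - (x ^ n) * (2 * (y ^ n - 1)) := by
        linear_combination (2 : S) * h7
      rw [h8, h5, mul_zero]
    have h9 : x ^ n = x ^ (n % r) := by
      conv_lhs => rw [← Nat.mod_add_div n r, pow_add, pow_mul, hx, one_pow, mul_one]
    rwa [h9] at h6
  have h1 := key (AdjoinRoot.root f) root_pow
  set j := n % r with hj
  have hj0 : 0 < j := by
    rcases Nat.eq_zero_or_pos j with h0 | h0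
    · exfalso
      have h2 : r ∣ n := Nat.dvd_of_mod_eq_zero h0
      have h3 : r ∣ Nat.gcd r n := Nat.dvd_gcd dvd_rfl h2
      rw [hrn] at h3
      exact hr.one_lt.ne' (Nat.dvd_one.1 h3)
    · exact h0
  have hjr : j < r := Nat.mod_lt _ hr.pos
  have h2 : f ∣ (2 : (ZMod n)[X]) * (X ^ j - 1) := by
    rw [← AdjoinRoot.mk_eq_zero]
    simp only [map_mul, map_sub, map_pow, map_one, AdjoinRoot.mk_X, map_ofNat]
    exact h1
  have hm := monic_aux (R := ZMod n) hr.pos
  have h3 : (2 : (ZMod n)[X]) * (X ^ j - 1) = 0 := by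
    by_contra hne
    refine (hm.1.not_dvd_of_degree_lt hne ?_) h2
    rw [hm.2]
    have h4 : ((2 : (ZMod n)[X]) * (X ^ j - 1)).natDegree ≤ j := by
      have h5 : (2 : (ZMod n)[X]).natDegree = 0 := natDegree_ofNat 2
      have h6 : (X ^ j - 1 : (ZMod n)[X]).natDegree ≤ j := by
        have := natDegree_X_pow_sub_C (n := j) (r := (1 : ZMod n))
        rw [map_one] at this
        exact this.le
      calc _ ≤ (2 : (ZMod n)[X]).natDegree + (X ^ j - 1 : (ZMod n)[X]).natDegree := natDegree_mul_le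
        _ ≤ j := by omega
    exact (degree_le_of_natDegree_le h4).trans_lt (by exact_mod_cast hjr)
  have h4 := congrArg (fun Q : (ZMod n)[X] => Q.eval 0) h3
  simp only [eval_mul, eval_sub, eval_pow, eval_X, eval_one, eval_zero, eval_ofNat] at h4
  rw [zero_pow hj0.ne'] at h4
  have h5 : ((2 : ℕ) : ZMod n) = 0 := by
    push_cast
    linear_combination -h4
  have h6 : n ∣ 2 := (ZMod.natCast_eq_zero_iff 2 n).1 h5
  have := Nat.le_of_dvd (by norm_num) h6
  omega

/-- Lifting to `ℤ[X]`. -/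
lemma Cong.lift {r M e : ℕ} (h : Cong r M e) :
    ∃ A B : ℤ[X], (X - 1) ^ e - (X ^ e - 1) = (X ^ r - 1) * A + C (M : ℤ) * B := by
  obtain ⟨A', hA'⟩ := h
  obtain ⟨A, rfl⟩ := Polynomial.map_surjective (Int.castRingHom (ZMod M)) ZMod.intCast_surjective A'
  have h1 : Polynomial.map (Int.castRingHom (ZMod M)) ((X - 1) ^ e - (X ^ e - 1) - (X ^ r - 1) * A) = 0 := by
    simp only [Polynomial.map_sub, Polynomial.map_mul, Polynomial.map_pow, Polynomial.map_X,
      Polynomial.map_one]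
    rw [hA', sub_self]
  have h2 : C (M : ℤ) ∣ (X - 1) ^ e - (X ^ e - 1) - (X ^ r - 1) * A := by
    rw [C_dvd_iff_dvd_coeff]
    intro i
    have h3 := congrArg (fun Q => Q.coeff i) h1
    simp only [coeff_map, coeff_zero] at h3
    exact (ZMod.intCast_zmod_eq_zero_iff_dvd _ _).1 h3
  obtain ⟨B, hB⟩ := h2
  exact ⟨A, B, by linear_combination hB⟩

lemma int_dvd {M z : ℤ} (hM : M ≠ 0) (a : integralClosure ℤ ℂ)
    (h : ((z : integralClosure ℤ ℂ)) = (M : integralClosure ℤ ℂ) * a) : M ∣ z := by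
  have h1 : (z : ℂ) = (M : ℂ) * (a : ℂ) := by
    have := congrArg (algebraMap (integralClosure ℤ ℂ) ℂ) h
    simpa using this
  have hMc : (M : ℂ) ≠ 0 := by exact_mod_cast hM
  have h2 : (a : ℂ) = algebraMap ℚ ℂ ((z : ℚ) / M) := by
    rw [map_div₀]
    simp only [map_intCast]
    rw [h1]
    field_simp
  have h3 : IsIntegral ℤ (algebraMap ℚ ℂ ((z : ℚ) / M)) := by
    rw [← h2]
    exact a.2
  have h4 : IsIntegral ℤ ((z : ℚ) / M) :=
    (isIntegral_algebraMap_iff (algebraMap ℚ ℂ).injective).1 h3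
  obtain ⟨y, hy⟩ := IsIntegrallyClosed.isIntegral_iff.1 h4
  refine ⟨y, ?_⟩
  have hMq : (M : ℚ) ≠ 0 := by exact_mod_cast hM
  have h5 : (z : ℚ) = M * y := by
    rw [eq_div_iff hMq] at hy
    simp only [algebraMap_int_eq, eq_intCast] at hy
    linarith
  exact_mod_cast h5

/-- The norm: `r ^ e ≡ r` modulo `M`. -/
lemma Cong.norm {r M e : ℕ} (hr : r.Prime) (hM : 0 < M) (he : Nat.Coprime e r) (h : Cong r M e) :
    (M : ℤ) ∣ (r : ℤ) ^ e - r := by
  have := Fact.mk hr
  obtain ⟨A, B, hAB⟩ := h.lift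
  set R := integralClosure ℤ ℂ with hR
  -- a primitive root in `R`
  have hζc := Complex.isPrimitiveRoot_exp r hr.ne_zero
  set ζc : ℂ := Complex.exp (2 * Real.pi * Complex.I / r) with hζcdef
  have hint : IsIntegral ℤ ζc := by
    refine IsIntegral.of_pow hr.pos ?_
    rw [hζc.pow_eq_one]
    exact isIntegral_one
  set ζ : R := ⟨ζc, hint⟩ with hζ
  have hζp : IsPrimitiveRoot ζ r :=
    IsPrimitiveRoot.of_map_of_injective (f := algebraMap R ℂ) hζc Subtype.val_injective
  have hprod : ∏ μ ∈ primitiveRoots r R, (1 - μ) = (r : R) := by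
    have h1 := cyclotomic_eq_prod_X_sub_primitiveRoots hζp
    have h2 := congrArg (Polynomial.eval 1) h1
    rw [eval_one_cyclotomic_prime, eval_prod] at h2
    simp only [eval_sub, eval_X, eval_C] at h2
    exact h2.symm
  -- congruences
  set I : Ideal R := Ideal.span {(M : R)} with hI
  have hcong : ∀ μ ∈ primitiveRoots r R, (Ideal.Quotient.mk I) ((μ - 1) ^ e) =
      (Ideal.Quotient.mk I) (μ ^ e - 1) := by
    intro μ hμ
    have hμ1 : μ ^ r = 1 := (isPrimitiveRoot_of_mem_primitiveRoots hμ).pow_eq_one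
    rw [Ideal.Quotient.eq, hI, Ideal.mem_span_singleton]
    have h1 := congrArg (aeval μ) hAB
    simp only [map_sub, map_add, map_mul, map_pow, aeval_X, map_one, aeval_C] at h1
    rw [hμ1, sub_self, zero_mul, zero_add] at h1
    refine ⟨aeval μ B, ?_⟩
    rw [h1]
    simp
  obtain ⟨e', -, he'⟩ := Nat.exists_mul_mod_eq_one_of_coprime he hr.one_lt
  have hback : ∀ μ : R, μ ^ r = 1 → (μ ^ e) ^ e' = μ := by
    intro μ hμ
    rw [← pow_mul]
    conv_lhs => rw [← Nat.mod_add_div (e * e') r, pow_add, pow_mul, hμ, one_pow, mul_one, he', pow_one]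
  have he'c : Nat.Coprime e' r := by
    rw [Nat.coprime_comm, Nat.Prime.coprime_iff_not_dvd hr]
    intro hd
    have h1 : e * e' % r = 0 := Nat.mod_eq_zero_of_dvd (hd.mul_left e)
    omega
  have hperm : ∏ μ ∈ primitiveRoots r R, (1 - μ ^ e) = ∏ μ ∈ primitiveRoots r R, (1 - μ) := by
    refine Finset.prod_nbij' (fun μ => μ ^ e) (fun μ => μ ^ e') ?_ ?_ ?_ ?_ ?_
    · intro μ hμ
      rw [mem_primitiveRoots hr.pos] at hμ ⊢
      exact hμ.pow_of_coprime e he
    · intro μ hμ
      rw [mem_primitiveRoots hr.pos] at hμ ⊢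
      exact hμ.pow_of_coprime e' he'c
    · intro μ hμ
      exact hback μ (isPrimitiveRoot_of_mem_primitiveRoots hμ).pow_eq_one
    · intro μ hμ
      have := hback μ (isPrimitiveRoot_of_mem_primitiveRoots hμ).pow_eq_one
      show (μ ^ e') ^ e = μ
      rw [← pow_mul, mul_comm, pow_mul]
      exact this
    · intro μ _
      rfl
  have hsign : (((-1 : R)) ^ (e + 1)) ^ (primitiveRoots r R).card = 1 := by
    rw [hζp.card_primitiveRoots, Nat.totient_prime hr, ← pow_mul]
    apply Even.neg_one_pow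
    rcases hr.eq_two_or_odd' with h2 | h2
    · have h3 : Odd e := by
        rw [h2] at he
        exact Nat.coprime_two_right.1 he
      exact (h3.add_odd odd_one).mul_right _
    · have h3 : Even (r - 1) := by
        obtain ⟨k, hk⟩ := h2
        exact ⟨k, by omega⟩
      exact h3.mul_left _
  have hfin : (Ideal.Quotient.mk I) ((r : R) ^ e) = (Ideal.Quotient.mk I) (r : R) := by
    calc (Ideal.Quotient.mk I) ((r : R) ^ e)
        = (Ideal.Quotient.mk I) (∏ μ ∈ primitiveRoots r R, (((-1) ^ e) * (μ - 1) ^ e)) := by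
          rw [← hprod, ← Finset.prod_pow]
          congr 1
          refine Finset.prod_congr rfl fun μ _ => ?_
          rw [← mul_pow]
          congr 1
          ring
      _ = ∏ μ ∈ primitiveRoots r R, ((Ideal.Quotient.mk I) ((-1) ^ e) *
            (Ideal.Quotient.mk I) ((μ - 1) ^ e)) := by
          rw [map_prod]
          exact Finset.prod_congr rfl fun μ _ => map_mul _ _ _
      _ = ∏ μ ∈ primitiveRoots r R, ((Ideal.Quotient.mk I) ((-1) ^ e) *
            (Ideal.Quotient.mk I) (μ ^ e - 1)) :=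
          Finset.prod_congr rfl fun μ hμ => by rw [hcong μ hμ]
      _ = (Ideal.Quotient.mk I) (∏ μ ∈ primitiveRoots r R, ((-1) ^ (e + 1) * (1 - μ ^ e))) := by
          rw [map_prod]
          refine Finset.prod_congr rfl fun μ _ => ?_
          rw [← map_mul]
          congr 1
          ring
      _ = (Ideal.Quotient.mk I) (∏ μ ∈ primitiveRoots r R, (1 - μ)) := by
          rw [Finset.prod_mul_distrib, Finset.prod_const, hsign, one_mul, hperm]
      _ = (Ideal.Quotient.mk I) (r : R) := by rw [hprod]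
  rw [Ideal.Quotient.eq, hI, Ideal.mem_span_singleton] at hfin
  obtain ⟨a, ha⟩ := hfin
  refine int_dvd (M := (M : ℤ)) (by exact_mod_cast hM.ne') a ?_
  push_cast
  exact ha

/-- The structure of composite solutions. -/
theorem main {r n : ℕ} (hr : r.Prime) (hn : 1 < n) (hrn : Nat.Coprime r n) (hcomp : ¬ n.Prime)
    (h : Cong r n n) :
    Odd n ∧ ∀ p : ℕ, p.Prime → p ∣ n →
      r * p < n ∧
      (n / p ^ n.factorization p = 1 ∨ r < n / p ^ n.factorization p) ∧
      ∀ a : ℕ, 2 ≤ a → p ^ a ∣ n → r < p ∧ r ^ (p - 1) ≡ 1 [MOD p ^ a] ∧ Cong r (p ^ a) p := by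
  refine ⟨?_, fun p hp hpn => ?_⟩
  · by_contra hev
    rw [Nat.not_odd_iff_even] at hev
    have h2 := h.even hr hrn hn hev
    subst h2
    exact hcomp Nat.prime_two
  have hpr : ¬ p ∣ r := by
    intro hd
    have h1 : p ∣ Nat.gcd r n := Nat.dvd_gcd hd hpn
    rw [hrn] at h1
    exact hp.one_lt.ne' (Nat.dvd_one.1 h1)
  -- the `p`-free part
  set a := n.factorization p with ha
  set m := n / p ^ a with hm
  have hnm : n = p ^ a * m := (Nat.ordProj_mul_ordCompl_eq_self n p).symm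
  have hpm : ¬ p ∣ m := Nat.not_dvd_ordCompl hp (by omega)
  have hm0 : 0 < m := Nat.ordCompl_pos p (by omega)
  have hcm : Cong r p m := by
    have h1 := h.of_dvd hpn
    rw [hnm] at h1
    exact h1.pfree hp hpr
  have hmr : m = 1 ∨ r < m := by
    rcases (show m = 1 ∨ (2 ≤ m ∧ m < r) ∨ m = r ∨ r < m by omega) with h1 | h1 | h1 | h1
    · exact Or.inl h1
    · exact absurd (hcm.small hp.one_lt h1.1 h1.2) hpm
    · exfalso
      have h2 : r ∣ n := by rw [hnm, h1]; exact dvd_mul_left _ _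
      have h3 : r ∣ Nat.gcd r n := Nat.dvd_gcd dvd_rfl h2
      rw [hrn] at h3
      exact hr.one_lt.ne' (Nat.dvd_one.1 h3)
    · exact Or.inr h1
  have hsq : ∀ a : ℕ, 2 ≤ a → p ^ a ∣ n →
      r < p ∧ r ^ (p - 1) ≡ 1 [MOD p ^ a] ∧ Cong r (p ^ a) p := by
    intro a' ha2 hp2
    obtain ⟨b, rfl⟩ : ∃ b, a' = b + 1 := ⟨a' - 1, by omega⟩
    have hc := h.square hr hp hrn hp2
    have hM : 1 < p ^ (b + 1) := Nat.one_lt_pow (by omega) hp.one_lt
    refine ⟨?_, ?_, hc⟩
    · by_contra hlt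
      have h1 : p < r := by
        rcases Nat.lt_or_ge p r with h1 | h1
        · exact h1
        · exfalso
          have : p = r := by omega
          exact hpr (this ▸ dvd_rfl)
      have h2 := hc.small hM hp.two_le h1
      have h3 := Nat.le_of_dvd hp.pos h2
      have h4 : p * 1 < p * p := Nat.mul_lt_mul_of_pos_left hp.one_lt hp.pos
      have h5 : p ^ 2 ≤ p ^ (b + 1) := Nat.pow_le_pow_right hp.pos ha2
      rw [pow_two] at h5
      omega
    · have hcop : Nat.Coprime p r := (Nat.Prime.coprime_iff_not_dvd hp).2 hpr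
      have h1 := hc.norm hr (by omega) hcop
      have h2 : (r : ℤ) ^ p - r = r * ((r : ℤ) ^ (p - 1) - 1) := by
        obtain ⟨k, hk⟩ : ∃ k, p = k + 1 := ⟨p - 1, by have := hp.one_lt; omega⟩
        rw [hk]
        simp only [Nat.add_sub_cancel]
        ring
      rw [h2] at h1
      have h3 : IsCoprime ((p ^ (b + 1) : ℕ) : ℤ) (r : ℤ) := by
        rw [Nat.isCoprime_iff_coprime]
        exact Nat.Coprime.pow_left _ hcop
      have h4 := h3.dvd_of_dvd_mul_left h1
      apply Nat.ModEq.symm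
      rw [Nat.modEq_iff_dvd]
      push_cast
      exact_mod_cast h4
  refine ⟨?_, hmr, hsq⟩
  by_cases hp2 : p ^ 2 ∣ n
  · have h1 := (hsq 2 le_rfl hp2).1
    have h2 := Nat.le_of_dvd (by omega) hp2
    calc r * p < p * p := Nat.mul_lt_mul_of_pos_right h1 hp.pos
      _ = p ^ 2 := (pow_two p).symm
      _ ≤ n := h2
  · have ha1 : a = 1 := by
      have h1 : 1 ≤ a := hp.factorization_pos_of_dvd (by omega) hpn
      have h2 : ¬ 2 ≤ a := by
        intro h2
        exact hp2 ((pow_dvd_pow p h2).trans (Nat.ordProj_dvd n p))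
      omega
    rw [ha1, pow_one] at hnm
    rcases hmr with h1 | h1
    · exfalso
      rw [h1, mul_one] at hnm
      exact hcomp (hnm ▸ hp)
    · calc r * p < m * p := Nat.mul_lt_mul_of_pos_right h1 hp.pos
        _ = n := by rw [mul_comm]; exact hnm.symm

end Pool.Agent.H24.Aks
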